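import Pool.Agent.Lib.MP_0f31da_co.Proof

set_option autoImplicit false

namespace Pool.Agent.Results.MP_0f31da_co.Disproof

open Pool.Agent.Lib.MP_0f31da_co

/-- It is not true that every connected finite simple graph `G` with at least two vertices
satisfies `f(G) ≥ ⌈b(G) / l̄⌉`. -/
theorem result :
    ¬ ∀ (V : Type) [Fintype V] [Nontrivial V] (G : SimpleGraph V), G.Connected →
      ⌈(bipNum G : ℚ) / avgLocalIndep G⌉ ≤ (forestNum G : ℤ) :=
  main

end Pool.Agent.Results.MP_0f31da_co.Disproof
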